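import Pool.Agent.Helper29.SH.Goals

/-!
# SH-FT1: the key trick
-/

set_option autoImplicit false

namespace Pool.Agent.Helper29.SH

open Subgroup Pool.H83Shunkov

theorem inv_pow {G : Type} [Group G] {a : G} {N : Subgroup G} (h : Inv a N) (k : ℕ) :
    Inv (a ^ k) N := by
  induction k with
  | zero => intro n hn; simpa using hn
  | succ k ih =>
    intro n hn
    have h1 := h _ (ih n hn)
    have h2 : a⁻¹ * ((a ^ k)⁻¹ * n * a ^ k) * a = (a ^ (k + 1))⁻¹ * n * a ^ (k + 1) := by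
      rw [pow_succ]; group
    rwa [h2] at h1

theorem inv_inv_of_pow {G : Type} [Group G] {a : G} {N : Subgroup G} (h : Inv a N) {p : ℕ}
    (hp : 0 < p) (ha : a ^ p = 1) : Inv a⁻¹ N := by
  have h1 : a⁻¹ = a ^ (p - 1) := by
    rw [inv_eq_iff_mul_eq_one, ← pow_succ', Nat.sub_add_cancel hp, ha]
  rw [h1]
  exact inv_pow h _

/-- facts on a conjugate `b` of `a` by an element of `N` -/
theorem conj_facts {G : Type} [Group G] {a : G} {N : Subgroup G} {p : ℕ} (hp : 0 < p)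
    (ha : a ^ p = 1) (hN : Inv a N) (hT : ∀ t ∈ N, IsOfFinOrder t → t * a = a * t → t = 1)
    {x : G} (hx : x ∈ N) :
    Inv (x⁻¹ * a * x) N ∧ Inv (x⁻¹ * a * x)⁻¹ N ∧
      (∀ t ∈ N, IsOfFinOrder t → t * (x⁻¹ * a * x) = (x⁻¹ * a * x) * t → t = 1) ∧
      a⁻¹ * (x⁻¹ * a * x) ∈ N := by
  have hN' := inv_inv_of_pow hN hp ha
  have hxi := N.inv_mem hx
  refine ⟨?_, ?_, ?_, ?_⟩
  · intro n hn
    have h1 : x * n * x⁻¹ ∈ N := N.mul_mem (N.mul_mem hx hn) hxi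
    have h2 := hN _ h1
    have h3 := N.mul_mem (N.mul_mem hxi h2) hx
    have h4 : x⁻¹ * (a⁻¹ * (x * n * x⁻¹) * a) * x = (x⁻¹ * a * x)⁻¹ * n * (x⁻¹ * a * x) := by
      group
    rwa [h4] at h3
  · intro n hn
    have h1 : x * n * x⁻¹ ∈ N := N.mul_mem (N.mul_mem hx hn) hxi
    have h2 := hN' _ h1
    have h3 := N.mul_mem (N.mul_mem hxi h2) hx
    have h4 : x⁻¹ * (a⁻¹⁻¹ * (x * n * x⁻¹) * a⁻¹) * x =
        (x⁻¹ * a * x)⁻¹⁻¹ * n * (x⁻¹ * a * x)⁻¹ := by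
      group
    rwa [h4] at h3
  · intro t ht htf hc
    have h1 : x * t * x⁻¹ ∈ N := N.mul_mem (N.mul_mem hx ht) hxi
    have h2 : IsOfFinOrder (x * t * x⁻¹) := by
      have := MonoidHom.isOfFinOrder (MulAut.conj x).toMonoidHom htf
      simpa using this
    have h3 : x * t * x⁻¹ * a = a * (x * t * x⁻¹) := by
      calc x * t * x⁻¹ * a = x * (t * (x⁻¹ * a * x)) * x⁻¹ := by group
        _ = x * ((x⁻¹ * a * x) * t) * x⁻¹ := by rw [hc]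
        _ = a * (x * t * x⁻¹) := by group
    have h4 := hT _ h1 h2 h3
    have h5 : t = x⁻¹ * (x * t * x⁻¹) * x := by group
    rw [h5, h4]; group
  · have h2 := hN _ hxi
    have h3 := N.mul_mem h2 hx
    have h4 : a⁻¹ * x⁻¹ * a * x = a⁻¹ * (x⁻¹ * a * x) := by group
    rwa [h4] at h3

theorem t_FT1 : S_BIJ → S_POW → S_FT1 := by
  intro hBIJ hPOW G _ a N p hp hp2 ha hN hfin hT x z g h hg hh hxN hxg hzN hzh
  have hp0 := hp.pos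
  -- `x = a⁻¹ x'⁻¹ a x'`
  have step : ∀ (u g : G), g ∈ N → u ∈ N → u ∈ Pr a g → ∀ b : G, b ∈ Pr a g → Inv b N →
      FPF b (Pr a g ⊓ N) → ∃ k ∈ N, u = b⁻¹ * k⁻¹ * b * k := by
    intro u g hg hu hug b hb hbN hbf
    obtain ⟨k, hk, hk2⟩ := hBIJ G b (Pr a g ⊓ N) ((hfin g hg).subset (by
        intro y hy; exact hy.1)) (fun k hk => mem_inf.2 ⟨mul_mem (mul_mem (inv_mem hb)
          (mem_inf.1 hk).1) hb, hbN k (mem_inf.1 hk).2⟩) hbf u ⟨hug, hu⟩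
    exact ⟨k, hk.2, hk2⟩
  have haPr : ∀ g, a ∈ Pr a g := fun g => subset_closure (by simp)
  have hfpf : ∀ g ∈ N, FPF a (Pr a g ⊓ N) := fun g hg k hk hc =>
    hT k hk.2 (isOfFinOrder_of_mem_finite (hfin g hg) hk.1) hc
  obtain ⟨x', hx'N, hx'⟩ := step x g hg hxN hxg a (haPr g) hN (hfpf g hg)
  have h2p : ¬ p ∣ 2 := by
    intro h
    have := (Nat.prime_dvd_prime_iff_eq hp Nat.prime_two).1 h
    exact hp2 this
  have hfpf2 : FPF (a ^ 2) (Pr a h ⊓ N) := hPOW G a _ p 2 hp ha h2p (hfpf h hh)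
  obtain ⟨z', hz'N, hz'⟩ := step z h hh hzN hzh (a ^ 2) (pow_mem (haPr h) 2) (inv_pow hN 2) hfpf2
  -- `y₁`, `y₂`
  obtain ⟨y₁, hy₁⟩ : ∃ y₁, y₁ = x'⁻¹ * a * x' := ⟨_, rfl⟩
  obtain ⟨y₂, hy₂⟩ : ∃ y₂, y₂ = z'⁻¹ * a * z' := ⟨_, rfl⟩
  have e1 : y₁ = a * x := by rw [hy₁, hx']; group
  have e2 : y₂ ^ 2 = a ^ 2 * z := by
    rw [hy₂, hz', sq, sq]; group
  obtain ⟨f1, f2, f3, f4⟩ := conj_facts hp0 ha hN hT hx'N
  obtain ⟨g1, g2, g3, g4⟩ := conj_facts hp0 ha hN hT hz'N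
  rw [← hy₁] at f1 f2 f3 f4
  rw [← hy₂] at g1 g2 g3 g4
  -- the finite group `B`
  have hBfin : ((closure ({y₁, y₂} : Set G) : Subgroup G) : Set G).Finite := by
    have hm : z' * x'⁻¹ ∈ N := N.mul_mem hz'N (N.inv_mem hx'N)
    have h1 := hfin _ hm
    let f : G →* G := (MulAut.conj x'⁻¹).toMonoidHom
    have h2 : (Pr a (z' * x'⁻¹)).map f = closure ({y₁, y₂} : Set G) := by
      rw [Pr, MonoidHom.map_closure]
      congr 1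
      rw [Set.image_pair, hy₁, hy₂]
      simp [f, mul_assoc]
    rw [← h2]
    exact h1.image f
  obtain ⟨B, hB⟩ : ∃ B : Subgroup G, B = closure ({y₁, y₂} : Set G) := ⟨_, rfl⟩
  rw [← hB] at hBfin
  have hy₁B : y₁ ∈ B := by rw [hB]; exact subset_closure (by simp)
  have hy₂B : y₂ ∈ B := by rw [hB]; exact subset_closure (by simp)
  have hA'fin : ((B ⊓ N : Subgroup G) : Set G).Finite := hBfin.subset (fun y hy => hy.1)
  have hA1 : Inv y₁ (B ⊓ N) := fun k hk => mem_inf.2 ⟨mul_mem (mul_mem (inv_mem hy₁B)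
    (mem_inf.1 hk).1) hy₁B, f1 k (mem_inf.1 hk).2⟩
  have hA2 : Inv y₁⁻¹ (B ⊓ N) := fun k hk =>
    mem_inf.2 ⟨mul_mem (mul_mem (inv_mem (inv_mem hy₁B)) (mem_inf.1 hk).1) (inv_mem hy₁B),
      f2 k (mem_inf.1 hk).2⟩
  have hAf : FPF y₁⁻¹ (B ⊓ N) := by
    intro k hk hc
    apply f3 k hk.2 (isOfFinOrder_of_mem_finite hBfin hk.1)
    calc k * y₁ = y₁ * (y₁⁻¹ * k) * y₁ := by group
      _ = y₁ * (k * y₁⁻¹) * y₁ := by rw [hc]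
      _ = y₁ * k := by group
  -- `m = y₁⁻¹ y₂`
  have hm : y₁⁻¹ * y₂ ∈ B ⊓ N := by
    refine mem_inf.2 ⟨mul_mem (inv_mem hy₁B) hy₂B, ?_⟩
    have h1 : y₁⁻¹ * y₂ = (a⁻¹ * y₁)⁻¹ * (a⁻¹ * y₂) := by group
    rw [h1]
    exact N.mul_mem (N.inv_mem f4) g4
  -- `w = y₁ y₂⁻²`
  have hm' : y₁ * (y₁ * (y₂ ^ 2)⁻¹) ∈ B ⊓ N := by
    have h1 : y₁ * (y₁ * (y₂ ^ 2)⁻¹) =
        y₁⁻¹⁻¹ * (y₁ * (y₁⁻¹ * y₂)⁻¹ * y₁⁻¹ * (y₁⁻¹ * y₂)⁻¹ ) * y₁⁻¹ := by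
      rw [sq]; group
    rw [h1]
    apply hA2
    refine mul_mem ?_ (inv_mem hm)
    have h2 := hA2 _ (inv_mem hm)
    simpa using h2
  obtain ⟨k, hk, hk2⟩ := hBIJ G y₁⁻¹ (B ⊓ N) hA'fin hA2 hAf _ hm'
  have hw : y₁ * (y₂ ^ 2)⁻¹ = k⁻¹ * y₁⁻¹ * k := by
    have : y₁ * (y₂ ^ 2)⁻¹ = y₁⁻¹ * (y₁ * (y₁ * (y₂ ^ 2)⁻¹)) := by group
    rw [this, hk2]; group
  refine ⟨x' * k, N.mul_mem hx'N hk.2, ?_⟩
  have hxz : x * z⁻¹ = a⁻¹ * (((x' * k)⁻¹ * a * (x' * k))⁻¹ * a) * a := by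
    have h1 : x * z⁻¹ = a⁻¹ * (y₁ * (y₂ ^ 2)⁻¹) * a ^ 2 := by
      rw [e2, e1, sq]; group
    rw [h1, hw, hy₁, sq]; group
  rw [hxz]
  have h5 : (x' * k)⁻¹ * a * (x' * k) ∈ Pr a (x' * k) := subset_closure (by simp)
  exact mul_mem (mul_mem (inv_mem (haPr _)) (mul_mem (inv_mem h5) (haPr _))) (haPr _)

end Pool.Agent.Helper29.SH
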