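import Pool.Agent.Helper29.SH.Goals

set_option autoImplicit false

namespace Pool.Agent.Helper29.SH

open Subgroup Pool.H83Shunkov

theorem map_mem_normalizer {G K : Type} [Group G] [Group K] (f : K →* G) {H : Subgroup K} {x : K}
    (hx : x ∈ Subgroup.normalizer (H : Set K)) :
    f x ∈ Subgroup.normalizer ((H.map f : Subgroup G) : Set G) := by
  rw [Subgroup.mem_normalizer_iff] at hx ⊢
  intro g
  constructor
  · rintro ⟨h, hh, rfl⟩
    exact ⟨x * h * x⁻¹, (hx h).1 hh, by simp⟩
  · rintro ⟨h, hh, he⟩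
    have h1 : x * (x⁻¹ * h * x) * x⁻¹ ∈ H := by
      have : x * (x⁻¹ * h * x) * x⁻¹ = h := by group
      rw [this]; exact hh
    refine ⟨x⁻¹ * h * x, (hx _).2 h1, ?_⟩
    rw [map_mul, map_mul, he, map_inv]
    group

theorem t_SSUB : S_SSUB := by
  intro G K _ _ f hf hG H hH x y n p hp hx hy hn hxp hxH hc
  have h1 : ((H.map f : Subgroup G) : Set G).Finite := hH.image f
  have h2 := hG (H.map f) h1 (f x) (f y) (f n) p hp (map_mem_normalizer f hx)
    (map_mem_normalizer f hy) (map_mem_normalizer f hn)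
    (by rw [← map_pow]; exact ⟨_, hxp, rfl⟩)
    (by
      rintro ⟨h, hh, he⟩
      exact hxH (hf he ▸ hh))
    ⟨_, hc, by simp⟩
  have h3 : (closure (({x, y} : Set K) ∪ (H : Set K))).map f =
      closure (({f x, f y} : Set G) ∪ ((H.map f : Subgroup G) : Set G)) := by
    rw [MonoidHom.map_closure]
    congr 1
    rw [Set.image_union, Set.image_pair]
    rfl
  rw [← h3] at h2
  refine Set.Finite.of_finite_image (f := f) (h2.subset ?_) hf.injOn
  rintro z ⟨w, hw, rfl⟩
  exact ⟨w, hw, rfl⟩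

end Pool.Agent.Helper29.SH
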