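import Pool.Agent.Helper29.SH.Defs

/-!
# Project SH: goals (MP_0a002a_al, Shunkov groups)

Notation in the proofs: `x^g = g⁻¹ x g`, `[x, g] = x⁻¹ x^g`. `Inv a K`: `K^a ≤ K`. `FPF a K`: only `1`
in `K` commutes with `a`. `Pr a g = ⟨a, a^g⟩`. Files: `Defs.lean` here and `Helper83/Shunkov/*.lean`
(`IsLocFin`, `lfRad`, `PairFinite`, `X`, `Good`, `good_extension`, `shunkov_conclusion`, trees).
-/

set_option autoImplicit false

namespace Pool.Agent.Helper29.SH

open Subgroup Pool.H83Shunkov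

/-! ## Part 1: finite groups -/

/-- **BIJ** (0.4 h). The map `k ↦ a⁻¹ k⁻¹ a k` is a bijection of the finite group `K`.
Proof. It maps `K` to `K` by `Inv`. Injective: `a⁻¹k⁻¹a k = a⁻¹l⁻¹a l` gives `a⁻¹(l k⁻¹)a = l k⁻¹`
(multiply by `k⁻¹` on the right and by `a⁻¹ l a` on the left), so `l k⁻¹` in `K` commutes with `a`,
`l = k`. A finite set. -/
def S_BIJ : Prop := ∀ (M : Type) [Group M] (a : M) (K : Subgroup M), (K : Set M).Finite →
  Inv a K → FPF a K → ∀ y ∈ K, ∃ k ∈ K, y = a⁻¹ * k⁻¹ * a * k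

/-- **POW** (0.3 h). Proof. There is `j` with `i j ≡ 1 mod p`, so `a = (a^i)^j`; what commutes with
`a^i` commutes with `a`. -/
def S_POW : Prop := ∀ (M : Type) [Group M] (a : M) (K : Subgroup M) (p i : ℕ), p.Prime →
  a ^ p = 1 → ¬ p ∣ i → FPF a K → FPF (a ^ i) K

/-- **CARD** (0.6 h). Proof. If `a = 1` then `K = 1`. Otherwise `⟨a⟩` is a `p`-group acting on `K` by
conjugation (`a K a⁻¹ = K` since `K` is finite) and the only fixed point is `1`; so `|K| ≡ 1 mod p`
(`IsPGroup.card_modEq_card_fixedPoints`). -/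
def S_CARD : Prop := ∀ (M : Type) [Group M] (a : M) (K : Subgroup M) (p : ℕ), (K : Set M).Finite →
  Inv a K → FPF a K → p.Prime → a ^ p = 1 → ¬ p ∣ Nat.card K

/-- **SYE** (1.2 h; CARD as hypothesis). There is an `a`-invariant Sylow `q`-subgroup.
Proof. `⟨a⟩` (a `p`-group) acts on `Sylow q K` by conjugation; the number of Sylow `q`-subgroups
divides `|K|` (`Sylow.card_dvd_index` or orbit-stabiliser), so it is not divisible by `p` (CARD) and
there is a fixed point. (If `q` does not divide `|K|` take `⊥`.) -/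
def S_SYE : Prop := ∀ (M : Type) [Group M] (a : M) (K : Subgroup M) (p q : ℕ), (K : Set M).Finite →
  Inv a K → FPF a K → p.Prime → a ^ p = 1 → q.Prime →
  ∃ S : Subgroup M, S ≤ K ∧ Nat.card S = q ^ (Nat.card K).factorization q ∧ Inv a S

/-- **SYU** (0.8 h; BIJ as hypothesis). The `a`-invariant Sylow `q`-subgroup is unique.
Proof. `S' = S^k = k⁻¹ S k` with `k` in `K` (Sylow). `a` normalises `S` and `S'`, so
`k⁻¹Sk = a⁻¹k⁻¹S k a = (k^a)⁻¹ S k^a`, i.e. `n := k^a k⁻¹` lies in `N_K(S)`, which is finite and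
`a`-invariant. By BIJ (for `N_K(S)`; `FPF` passes to subgroups) `n = m^a m⁻¹` for some `m` in
`N_K(S)` (apply BIJ to `n⁻¹`or use that `m ↦ m^a m⁻¹` is also injective); then `m⁻¹k` commutes with
`a`, so `k = m`, `S' = S`. -/
def S_SYU : Prop := ∀ (M : Type) [Group M] (a : M) (K S S' : Subgroup M) (q : ℕ),
  (K : Set M).Finite → Inv a K → FPF a K → q.Prime → S ≤ K → S' ≤ K →
  Nat.card S = q ^ (Nat.card K).factorization q → Nat.card S' = q ^ (Nat.card K).factorization q →
  Inv a S → Inv a S' → S = S'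

/-- **SYC** (1 h; SYE, SYU as hypotheses). The `a`-invariant Sylow `q`-subgroup contains every
`a`-invariant `q`-subgroup.
Proof. Let `R ≤ K` be an `a`-invariant `q`-subgroup; choose a maximal `a`-invariant `q`-subgroup
`R' ≥ R` of `K`. `N_K(R')` is finite, `a`-invariant, `FPF`; let `S'` be an `a`-invariant Sylow
`q`-subgroup of it (SYE). The normal `q`-subgroup `R'` of `N_K(R')` lies in `S'`, so `R' = S'` by
maximality. If `R'` was not a Sylow subgroup of `K`, it would be properly contained in a `q`-subgroup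
`T`, and `N_T(R') > R'` is a `q`-subgroup of `N_K(R')` larger than its Sylow subgroup. So `R'` is the
`a`-invariant Sylow subgroup of `K` (SYU). -/
def S_SYC : Prop := ∀ (M : Type) [Group M] (a : M) (K : Subgroup M) (p q : ℕ), (K : Set M).Finite →
  Inv a K → FPF a K → p.Prime → a ^ p = 1 → q.Prime →
  ∃ S : Subgroup M, S ≤ K ∧ Nat.card S = q ^ (Nat.card K).factorization q ∧ Inv a S ∧
    ∀ R : Subgroup M, R ≤ K → IsPGroup q R → Inv a R → R ≤ S

/-- **FRA** (1.5 h; BIJ, POW as hypotheses). Frobenius action on an abelian group.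
Proof. (1) If `b` is an element with `b^p = 1` which normalises `W` and `FPF b W`, then
`∏_{i<p} w^{b^i} = 1` for all `w` in `W`: write `w = b⁻¹k⁻¹b k = (k⁻¹)^b k` (BIJ); the product over
`i < p` of `((k⁻¹)^b k)^{b^i} = (k^{b^{i+1}})⁻¹ k^{b^i}` telescopes to `k (k^{b^p})⁻¹ = 1` (`W` is
commutative). (2) For `u` in `V` let `b = a^u`: it satisfies (1) (`W` is normalised by `V`; `FPF` is
transported by conjugation with `u`). Multiply over all `u` in `V` and exchange the products:
`1 = ∏_{i<p} ∏_{u∈V} w^{(a^u)^i}`. For `i = 0` the inner product is `w^{|V|}`. For `0 < i < p` one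
has `(a^u)^i = (a^i)^u = a^i · [a^i, u]` and `u ↦ [a^i, u] = a^{-i}u⁻¹a^i u` is a bijection of `V`
(BIJ for `a^i`, `FPF (a^i) V` by POW), so the inner product is `∏_{v∈V} (w^{a^i})^v = Nm(w^{a^i})`
with `Nm(x) := ∏_{v∈V} x^v`, a homomorphism `W → W`. So
`1 = w^{|V|} Nm(∏_{0<i<p} w^{a^i}) = w^{|V|} Nm(w⁻¹)` by (1) for `b = a`, i.e. `Nm(w) = w^{|V|}`.
(3) `Nm(w)` is fixed by `V`, so `(w^u w⁻¹)^{|V|} = 1`, and `w^u = w` as `|V|` is prime to `|W|`. -/
def S_FRA : Prop := ∀ (M : Type) [Group M] (a : M) (W V : Subgroup M) (p : ℕ), p.Prime →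
  a ^ p = 1 → (W : Set M).Finite → (V : Set M).Finite → Inv a W → Inv a V → FPF a W → FPF a V →
  (∀ v ∈ V, ∀ w ∈ W, v⁻¹ * w * v ∈ W) → (∀ w ∈ W, ∀ w' ∈ W, w * w' = w' * w) →
  (Nat.card V).Coprime (Nat.card W) → ∀ v ∈ V, ∀ w ∈ W, v * w = w * v

/-- **FRS** (1.5 h; BIJ, FRA as hypotheses). Frobenius action on an `r`-group `S` (normal in the
ambient group).
Proof. Induction on `|S|` (over all groups `M`). If `S` is abelian use FRA. Otherwise let
`S' = [S, S]`, normal in `M`, `1 < S' < S` (`r`-groups are nilpotent). By induction `V` centralises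
`S'`. In `M/S'` put `W = S/S'` (abelian), `V̄`, `ā`. `FPF ā W`: if `a⁻¹ s a s⁻¹` lies in `S'` then
`s⁻¹ s^a` too (conjugate by `s`), so it is `k⁻¹ k^a` with `k` in `S'` (BIJ applied to its inverse,
or directly), `s k⁻¹` commutes with `a`, so `s = k` lies in `S'`. `FPF ā V̄`: `[v, a]` in
`S' ∩ V = 1` (orders). `|V̄|` divides `|V|`, prime to the `r`-power `|W|`. FRA: `[S, V] ≤ S'`. So for
`v` in `V`, `s` in `S`: `s^v = s z`, `z` in `S'`, `z^v = z`, so `s = s^{v^n} = s z^n` with
`n = |V|`, `z^n = 1`, `z = 1`. -/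
def S_FRS : Prop := ∀ (M : Type) [Group M] (a : M) (S V : Subgroup M) (p r : ℕ), S.Normal →
  p.Prime → r.Prime → a ^ p = 1 → (S : Set M).Finite → (V : Set M).Finite → IsPGroup r S →
  ¬ r ∣ Nat.card V → Inv a V → FPF a S → FPF a V → ∀ v ∈ V, ∀ s ∈ S, v * s = s * v

/-- **NRM** (1.5 h; SYE, SYU as hypotheses). `V` normalises the `a`-invariant Sylow `r`-subgroup `S`
of `E`.
Proof. `V ∩ E = 1` (orders), so `K := E V = E ⊔ V` is a group of order `|E||V|`, `a`-invariant, and
`FPF a K`: `ev` commuting with `a` gives `(v^a)v⁻¹ ∈ E ∩ V = 1`, `v = 1`, `e = 1`. Let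
`N₁ = N_K(S)`, `a`-invariant. Frattini: for `k` in `K`, `S^k` is a Sylow `r`-subgroup of `E` (normal in
`K`), so `S^k = S^e`, `k e⁻¹ ∈ N₁`: `K = N₁ E`. So `|N₁| = |N₁ ∩ E| |K| / |E| = |N₁ ∩ E| |V|` and the
`q`-part of `|N₁|` is `|V|`. Let `Q` be an `a`-invariant Sylow `q`-subgroup of `N₁` (SYE), of order
`|V|`, which is the `q`-part of `|K|`. By SYU in `K`, `Q = V`, so `V ≤ N₁`. -/
def S_NRM : Prop := ∀ (M : Type) [Group M] (a : M) (E V S : Subgroup M) (p q r : ℕ), p.Prime →
  q.Prime → r.Prime → a ^ p = 1 → (E : Set M).Finite → (V : Set M).Finite → IsPGroup q V →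
  ¬ q ∣ Nat.card E → Inv a E → Inv a V → FPF a E → FPF a V →
  (∀ v ∈ V, ∀ e ∈ E, v⁻¹ * e * v ∈ E) → S ≤ E →
  Nat.card S = r ^ (Nat.card E).factorization r → Inv a S → ∀ v ∈ V, ∀ s ∈ S, v⁻¹ * s * v ∈ S

/-- **FROB** (1 h; SYE, NRM, FRS as hypotheses).
Proof. For every prime `r` dividing `|E|` (`r ≠ q`) let `S` be an `a`-invariant Sylow `r`-subgroup of
`E` (SYE). By NRM `V` normalises `S`; `a` also does. Apply FRS in the group `N_M(S)`
(`r ∤ |V|` because `|V|` is a power of `q`): `V` centralises `S`. So `C_E(V)` contains a Sylow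
`r`-subgroup of `E` for every `r`, hence `|E|` divides `|C_E(V)|` and `C_E(V) = E`. -/
def S_FROB : Prop := ∀ (M : Type) [Group M] (a : M) (E V : Subgroup M) (p q : ℕ), p.Prime →
  q.Prime → a ^ p = 1 → (E : Set M).Finite → (V : Set M).Finite → IsPGroup q V →
  ¬ q ∣ Nat.card E → Inv a E → Inv a V → FPF a E → FPF a V →
  (∀ v ∈ V, ∀ e ∈ E, v⁻¹ * e * v ∈ E) → ∀ v ∈ V, ∀ e ∈ E, v * e = e * v

/-- **OMG** (0.5 h). Proof. `V = {z ∈ Z(R) | z^q = 1}`; the center of a nontrivial finite `q`-group is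
nontrivial, and contains an element of order `q`. `V` is `a`-invariant since `R^a = R` (finite). -/
def S_OMG : Prop := ∀ (M : Type) [Group M] (a : M) (R : Subgroup M) (q : ℕ), q.Prime →
  (R : Set M).Finite → Inv a R → IsPGroup q R → R ≠ ⊥ →
  ∃ V : Subgroup M, V ≤ R ∧ V ≠ ⊥ ∧ Inv a V ∧ (∀ v ∈ V, v ^ q = 1) ∧
    (∀ v ∈ V, ∀ w ∈ V, v * w = w * v)

/-! ## Part 2: general group theory -/

/-- **LFA** (0.6 h). Proof. In the group `M = L ⊔ ⟨a⟩` the subgroup `L` is normal (`a` has finite
order, so `a⁻¹` is a power of `a` and `a L a⁻¹ ≤ L` too); apply `IsLocFin.sup` in `M` to `L` and the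
finite group `⟨a⟩`, and map back to `G` (`IsLocFin.map`, `IsLocFin.comap_of_injective`). -/
def S_LFA : Prop := ∀ (G : Type) [Group G] (a : G) (L : Subgroup G), IsOfFinOrder a → Inv a L →
  IsLocFin L → IsLocFin (L ⊔ zpowers a)

/-- **MAX** (0.8 h). Proof. Otherwise choose recursively `M_0 < M_1 < ...` with `P (M_i)`. The union
`U` (directed) contains `a`, is infinite (it contains finite subgroups of unbounded order), and is
locally finite: a finite subset of `U` lies in some `M_i`. So `InLF a`. -/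
def S_MAX : Prop := ∀ (G : Type) [Group G] (a : G), ¬ InLF a → ∀ P : Subgroup G → Prop,
  (∀ M, P M → a ∈ M ∧ (M : Set G).Finite) → (∃ M, P M) →
  ∃ M, P M ∧ ∀ M', P M' → M ≤ M' → M' ≤ M

/-- **SSUB** (0.7 h). Proof. For `H ≤ K` finite put `H' = f(H)`; `f(x), f(y), f(n)` normalise `f(H)`;
the subgroup generated by `f(x), f(y), f(H)` is the image of the one generated by `x, y, H`. -/
def S_SSUB : Prop := ∀ (G K : Type) [Group G] [Group K] (f : K →* G), Function.Injective f →
  IsShunkov G → IsShunkov K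

/-- **SQUO** (1 h). Proof. Let `π : G → G/T`, `H̄` a finite subgroup of `G/T`, `H = π⁻¹(H̄)` (finite,
as `T` is finite). `π(x)` normalises `H̄` iff `x` normalises `H`. Lift `x̄, ȳ, n̄` to `x, y, n` in `G`:
`x^p ∈ H`, `x ∉ H`, `(n x n⁻¹)⁻¹ y ∈ H`; so `⟨x, y, H⟩` is finite and maps onto `⟨x̄, ȳ, H̄⟩`. -/
def S_SQUO : Prop := ∀ (G : Type) [Group G] (T : Subgroup G) [T.Normal], (T : Set G).Finite →
  IsShunkov G → IsShunkov (G ⧸ T)

/-- **RSUB** (0.4 h). Proof. For `h ≠ 1` of finite order take `N` for `f(h)` and `N' = f⁻¹(N)`;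
`K/N'` embeds in `G/N` (`Good.comp`). -/
def S_RSUB : Prop := ∀ (G K : Type) [Group G] [Group K] (f : K →* G), Function.Injective f →
  RG G → RG K

/-- **SEP** (0.8 h). Proof. Induction on the finite set `S` (or intersect): for every `s ∈ S` there is
`N_s`; let `N = N₀ ∩ ⋂ N_s`. `G/N` embeds in `G/N₀ × ∏ G/N_s`, which is `Good` (`good_pi`, or
`good_of_ker_range` twice, and `Good.comp`). -/
def S_SEP : Prop := ∀ (G : Type) [Group G], RG G → ∀ (N₀ : Subgroup G) [N₀.Normal],
  Good (G ⧸ N₀) → ∀ S : Set G, S.Finite → (∀ s ∈ S, IsOfFinOrder s ∧ s ≠ 1) →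
  ∃ (N : Subgroup G) (_ : N.Normal), N ≤ N₀ ∧ (∀ s ∈ S, s ∉ N) ∧ Good (G ⧸ N)

/-- **TFG** (0.5 h). Proof. `C ∩ N` is a torsion-free normal subgroup of `C` (so `Good`,
`good_torsionFree`) and `C/(C ∩ N)` embeds in `G/N`; `good_of_ker_range` for `C → G/N`. -/
def S_TFG : Prop := ∀ (G : Type) [Group G] (C N : Subgroup G) [N.Normal], Good (G ⧸ N) →
  (∀ t ∈ C, t ∈ N → IsOfFinOrder t → t = 1) → Good C

/-- **GLF** (0.8 h; SSUB, LFA as hypotheses). Proof. `C` is a Shunkov group (SSUB) with infinitely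
many elements of finite order and `X C` (`Good.X`), so `lfRad C` is infinite
(`shunkov_conclusion`). `L = (lfRad C).map C.subtype` is an infinite locally finite subgroup, and it is
`a`-invariant because conjugation by `a` is an automorphism of `C` (`a` has finite order, so
`a C a⁻¹ = C`) and `lfRad C` is characteristic. `L ⊔ ⟨a⟩` is locally finite by LFA. -/
def S_GLF : Prop := ∀ (G : Type) [Group G] (C : Subgroup G) (a : G), IsShunkov G → Good C →
  (Tor C).Infinite → Inv a C → IsOfFinOrder a → InLF a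

/-- **LIFT** (0.6 h; BIJ as hypothesis). Proof. Let `K ∋ f` be finite, `a`-invariant, `K ≤ F`. Then
`K ∩ N` is finite and `a`-invariant and `FPF`. `f⁻¹ f^a = f⁻¹ a⁻¹ f a` is a conjugate by `f` of the
given element, so it lies in `K ∩ N`; by BIJ (`k ↦ (k^a)⁻¹ k` is onto, apply it to the inverse
element) `(f^a)⁻¹ f = (k^a)⁻¹ k` with `k ∈ K ∩ N`, so `f k⁻¹` is fixed by `a`: `f = k ∈ N`. -/
def S_LIFT : Prop := ∀ (G : Type) [Group G] (a : G) (N F : Subgroup G) [N.Normal],
  (∀ f ∈ F, ∃ K : Subgroup G, K ≤ F ∧ (K : Set G).Finite ∧ Inv a K ∧ f ∈ K) → FPF a F →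
  ∀ f ∈ F, a⁻¹ * f * a * f⁻¹ ∈ N → f ∈ N

/-- **LFQ** (1.2 h; BIJ as hypothesis). Proof. Let `π : G → G/N`, `M = F ⊔ ⟨a⟩`, `E = π(M)`. `E` is
`Good` (`Good.comp`), so `X E`. The element `ā = π(a)` of `E` is pair-finite (every element of `E` is
`π(h)`, `⟨a, a^h⟩` is finite and maps onto `⟨ā, ā^{π(h)}⟩`). So `ā ∈ lfRad E`. For `f ∈ F` take
`K ∋ f`; by BIJ `f = a⁻¹ k⁻¹ a k = a⁻¹ a^k`, so `π(f) = ā⁻¹ ā^{π(k)}` lies in the normal subgroup
`lfRad E`. So `π(F) ≤ lfRad E` is locally finite. -/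
def S_LFQ : Prop := ∀ (G : Type) [Group G] (a : G) (N F : Subgroup G) [N.Normal], PairFinite a →
  (∀ f ∈ F, ∃ K : Subgroup G, K ≤ F ∧ (K : Set G).Finite ∧ Inv a K ∧ f ∈ K) → FPF a F →
  Good (G ⧸ N) → IsLocFin (F.map (QuotientGroup.mk' N))

/-! ## Part 3: the key trick (odd `p`) -/

/-- **FT1** (2 h; BIJ, POW as hypotheses). The heart of the proof. Write `A(g) = Pr a g ∩ N`, a finite
subgroup, `a`-invariant, `FPF a (A(g))` (its elements have finite order).
Proof. Let `x ∈ A(g)`, `z ∈ A(h)`. By BIJ there is `x' ∈ A(g)` with `x = a⁻¹x'⁻¹a x'`, i.e.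
`a x = a^{x'}`; by POW (`p` odd) `FPF (a²) (A(h))`, so there is `z' ∈ A(h)` with
`a² z = (a²)^{z'} = (a^{z'})²`. Put `y₁ = a^{x'}`, `y₂ = a^{z'}`, `B = ⟨y₁, y₂⟩ = (Pr a (z'x'⁻¹))^{x'}`,
a finite group, `A' = B ∩ N`, normalised by `y₁` (`N` is normalised by `a` and by `x' ∈ N`), and
`FPF y₁ A'` (conjugate back by `x'`: `x' t x'⁻¹ ∈ N` has finite order and commutes with `a`).
`y₁⁻¹y₂ ∈ A'`, because `y₁ ∈ aN`, `y₂ ∈ aN` and `a⁻¹Na = N`. So `y₂ = y₁m`,
`w := y₁ y₂⁻² = y₁ (y₁² m^{y₁} m)⁻¹ = y₁⁻¹ m'` with `m' = y₁² (m^{y₁} m)⁻¹ y₁⁻² ∈ A'` (`y₁`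
normalises the finite group `A'`). By BIJ for `y₁⁻¹` and `A'` (`FPF y₁⁻¹ A'`, and `A'` is
invariant under `y₁⁻¹` too, being finite) `w = (y₁⁻¹)^k` with `k ∈ A'`. So
`a x z⁻¹ a⁻² = (a x)(a² z)⁻¹ = y₁ y₂⁻² = w = (a⁻¹)^{h'}` with `h' = x' k ∈ N`. Hence
`x z⁻¹ = a⁻¹ (a⁻¹)^{h'} a² = ((a^{h'})⁻¹ a)^a`, and `(a^{h'})⁻¹ a ∈ Pr a h'`, which is normalised by
`a ∈ Pr a h'`. So `x z⁻¹ ∈ Pr a h'` with `h' ∈ N`. -/
def S_FT1 : Prop := ∀ (G : Type) [Group G] (a : G) (N : Subgroup G) (p : ℕ), p.Prime → p ≠ 2 →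
  a ^ p = 1 → Inv a N → (∀ g ∈ N, ((Pr a g : Subgroup G) : Set G).Finite) →
  (∀ t ∈ N, IsOfFinOrder t → t * a = a * t → t = 1) →
  ∀ x z g h : G, g ∈ N → h ∈ N → x ∈ N → x ∈ Pr a g → z ∈ N → z ∈ Pr a h →
    ∃ k ∈ N, x * z⁻¹ ∈ Pr a k

/-- **FT2** (1.5 h; FT1, BIJ as hypotheses). The elements of finite order of `N` form a subgroup, and
each lies in a finite `a`-invariant subgroup of `N`.
Proof. `F := {x ∈ N | ∃ g ∈ N, x ∈ Pr a g}` is a subgroup by FT1. It is normalised by `C = C_N(a)`: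
`(Pr a g)^c = Pr a (g c)`. Every `g ∈ N` is `c k` with `c ∈ C`, `k ∈ Pr a g ∩ N`: `[a, g] = a⁻¹a^g`
lies in `Pr a g ∩ N` (`a⁻¹g⁻¹a ∈ N`), so by BIJ `a⁻¹ a^g = a⁻¹ a^k`, `a^g = a^k`, `c = g k⁻¹`
commutes with `a`. So `F` is normalised by `N = C F`. Let `t ∈ N` be of finite order `n`, `t = c k`.
Modulo the normal subgroup `F` of `N`: `c^n ∈ F`, so `c^n` has finite order (all elements of `F` have:
`Pr a g` is finite) and so has `c`; `c` commutes with `a`, `c = 1` by hypothesis, `t = k` lies in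
`K = Pr a t ∩ N`, finite, `a`-invariant, contained in `N`. So the elements of finite order of `N` are
exactly those of `F`; products of them are in `F`. -/
def S_FT2 : Prop := ∀ (G : Type) [Group G] (a : G) (N : Subgroup G) (p : ℕ), p.Prime → p ≠ 2 →
  a ^ p = 1 → Inv a N → (∀ g ∈ N, ((Pr a g : Subgroup G) : Set G).Finite) →
  (∀ t ∈ N, IsOfFinOrder t → t * a = a * t → t = 1) →
  (∀ t ∈ N, IsOfFinOrder t →
    ∃ K : Subgroup G, K ≤ N ∧ (K : Set G).Finite ∧ Inv a K ∧ t ∈ K) ∧
  (∀ s ∈ N, ∀ t ∈ N, IsOfFinOrder s → IsOfFinOrder t → IsOfFinOrder (s * t))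

/-! ## Part 4: the core (setting `Sett a F p`) -/

/-- **QMUL** (1.5 h; SYC, LIFT as hypotheses). Products of elements of `Qel a F q` are in `Qel a F q`.
Proof. Let `x ∈ R₁`, `y ∈ R₂`, `K ∋ x y` finite `a`-invariant, `K ≤ F` (`loc`). By `sep` for
`S = K ∖ {1}` there is `N` with `K ∩ N = 1` and `π(F)` locally finite, `π : G → G/N`. The subgroup
`E = ⟨π(R₁), π(R₂), π(K)⟩` of `π(F)` is finite (`IsLocFin`), `ā`-invariant, and `FPF ā π(F)` by LIFT.
Let `S` be the `ā`-invariant Sylow `q`-subgroup of `E` which contains all `ā`-invariant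
`q`-subgroups (SYC): `π(R₁), π(R₂) ≤ S`, so `π(x y) ∈ S`. Then `R = K ∩ π⁻¹(S)` is a finite
`a`-invariant subgroup of `F` containing `x y`, and a `q`-group since `π` is injective on `K`. -/
def S_QMUL : Prop := ∀ (G : Type) [Group G] (a : G) (F : Subgroup G) (p q : ℕ), Sett a F p →
  q.Prime → ∀ x y : G, Qel a F q x → Qel a F q y → Qel a F q (x * y)

/-- **C1A** (1.5 h). Proof. Induction on `|V|` (over all `V`). `V = 1`: any `z ≠ 1` in `Q ∩ N`.
`V ≠ 1`: choose a subgroup `V₀ < V` and `e ∈ V`, `e ∉ V₀`, with `V = V₀ ⊔ ⟨e⟩` (`V` is elementary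
abelian; for instance a maximal subgroup `V₀` of `V`). `D = {z ∈ Q ∩ N | z commutes with V₀}` is
`≠ 1` by induction and normalised by `e` (`e ∈ Q`, `N` normal, `V` commutative). Suppose that only
`1 ∈ D` commutes with `e`. For `g ∈ D` the group `Pr e g` is finite (`e` has order `q`) and contained
in `Q`; `A = Pr e g ∩ D` is finite, normalised by `e`, a `q`-group, and only `1 ∈ A` commutes with
`e`; since `⟨e⟩` is a `q`-group, `|A| ≡ 1 mod q`, so `A = 1`. As `e⁻¹e^g = (e⁻¹g⁻¹e) g ∈ A`, `g`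
commutes with `e`, `g = 1`. So `D = 1`, a contradiction. Hence some `z ≠ 1` in `D` commutes with
`V₀` and `e`, so with `V`. -/
def S_C1A : Prop := ∀ (G : Type) [Group G] (Q N V : Subgroup G) [N.Normal] (q : ℕ), q.Prime →
  (∀ x ∈ Q, ∃ n : ℕ, x ^ q ^ n = 1) →
  (∀ x ∈ Q, ∀ g ∈ Q, orderOf x = q → ((Pr x g : Subgroup G) : Set G).Finite) →
  V ≤ Q → (V : Set G).Finite → (∀ v ∈ V, v ^ q = 1) → (∀ v ∈ V, ∀ w ∈ V, v * w = w * v) →
  Q ⊓ N ≠ ⊥ → ∃ z ∈ Q ⊓ N, z ≠ 1 ∧ ∀ v ∈ V, z * v = v * z

/-- **C1** (1.5 h; QMUL, OMG, C1A as hypotheses). Proof. `Q := {x | Qel a F q x}` is a subgroup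
(QMUL), `a`-invariant, all elements of `q`-power order. It is infinite, so there are `x ≠ 1` in `Q`, a
finite `a`-invariant `q`-subgroup `R ∋ x` of `F` (`R ≤ Q`), and `V ≤ R` as in OMG. If `Q` is locally
finite: `AltL` with `L = Q`. Otherwise: for every normal `N` with `π(F)` locally finite in `G/N` one
has `Q ∩ N ≠ 1` (else `Q` embeds in `π(F)` and is locally finite), so by C1A (`pair`) there is `z ≠ 1`
in `Q ∩ N` which commutes with `V`, i.e. `Cen F V ∩ N ≠ 1`. If `Cen F V` was finite then `sep` for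
`Cen F V ∖ {1}` gives an `N` with `Cen F V ∩ N = 1`. So `Cen F V` is infinite: `AltV`. -/
def S_C1 : Prop := ∀ (G : Type) [Group G] (a : G) (F : Subgroup G) (p q : ℕ), Sett a F p →
  q.Prime → {x | Qel a F q x}.Infinite → AltL a F ∨ AltV a F

/-- **C2** (2 h; SYC, LIFT, FROB as hypotheses). Proof. By `sep` for
`({x | Qel a F q x} ∪ Cen F V) ∖ {1}` there is a normal `N₁` which contains no nontrivial element of
`Cen F V`, no `x ≠ 1` with `Qel a F q x`, and `F N₁/N₁` is locally finite. Claim: `F ∩ N₁ = 1`; then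
`F` embeds in `F N₁/N₁` and is locally finite. Let `f ∈ F₁ := F ∩ N₁`. It suffices that `f` commutes
with `V` (then `f ∈ Cen F V ∩ N₁ = 1`). Suppose `c = [f, v] = f⁻¹ v⁻¹ f v ≠ 1`, `v ∈ V`; `c ∈ F`. By
`sep` for `{c}` there is a normal `N₂`, `c ∉ N₂`, `π(F)` locally finite, `π : G → G/N₂`. Let `E` be
the subgroup generated by the conjugates of `π(f)` under the finite group generated by `π(V)` and
`ā = π(a)` (finite: `V` is `a`-invariant, `a^p = 1`). `E ≤ π(F₁)` (`F₁` is normalised by `V ≤ F` and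
by `a`), finitely generated in a locally finite group, so finite; `E` is invariant under `π(V)` and
`ā`. `FPF ā π(F)` by LIFT, so `FPF ā E` and `FPF ā π(V)`. `q ∤ |E|`: an element of order `q` of `E`
is `π(e)` with `e ∈ F₁`; take `K ∋ e` finite `a`-invariant in `F` and `K₁ = K ∩ N₁ ∋ e`; `q ∤ |K₁|`,
since otherwise the `a`-invariant Sylow `q`-subgroup of `K₁` (SYC) is nontrivial and consists of
elements of `{x | Qel a F q x} ∩ N₁ = 1`; so the order of `e` and that of `π(e)` are prime to `q`.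
By FROB `π(V)` centralises `E`, so `π(c) = 1`, a contradiction. -/
def S_C2 : Prop := ∀ (G : Type) [Group G] (a : G) (F V : Subgroup G) (p q : ℕ), Sett a F p →
  q.Prime → V ≤ F → (V : Set G).Finite → IsPGroup q V → Inv a V →
  {x | Qel a F q x}.Finite → (Cen F V : Set G).Finite → IsLocFin F

/-- **CORE** (0.8 h; SYC, OMG, C1, C2 as hypotheses). Proof. If `{x | Qel a F q x}` is infinite for
some prime `q` use C1. Otherwise take `f ≠ 1` in `F`, `K ∋ f` (`loc`), a prime `q` dividing `|K|`,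
`R` the `a`-invariant Sylow `q`-subgroup of `K` (SYC), `R ≠ 1`, and `V ≤ R` from OMG. If `Cen F V` is
infinite: `AltV`. Otherwise C2 shows that `F` is locally finite: `AltL` with `L = F`. -/
def S_CORE : Prop := ∀ (G : Type) [Group G] (a : G) (F : Subgroup G) (p : ℕ), Sett a F p →
  (F : Set G).Infinite → AltL a F ∨ AltV a F

/-! ## Part 5: residually `Good` Shunkov groups -/

/-- **BO** (2.5 h; LFA, MAX, SEP, TFG, GLF, LFQ, FT2, CORE as hypotheses). `p` odd.
Proof. Suppose `¬ InLF a`. Let `P M` say: there is a finite subgroup `D`, `Inv a D`,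
`(Tor (centralizer D)).Infinite`, `M = D ⊔ ⟨a⟩` (finite; `D = 1` qualifies). Take `M = D ⊔ ⟨a⟩`
maximal (MAX) and `C = centralizer D` (`Inv a C`, since `a D a⁻¹ = D`). By SEP (`N₀ = ⊤`) choose `N`
normal, `Good (G ⧸ N)`, avoiding the nontrivial elements of `M` and of `Tor (centralizer {a})`. The
group `N_C = N ∩ C` satisfies the hypotheses of FT2 (`⟨a, a^g⟩` is finite by the Shunkov condition for
`H = 1`). So the elements of finite order of `N_C` form a subgroup `F` (`a`-invariant, with `loc`,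
`fpf`). `F` is infinite: otherwise SEP (below `N`, avoiding `F ∖ {1}`) gives `N' ≤ N` such that
`N' ∩ C` has no nontrivial element of finite order, so `C` is `Good` (TFG) and `InLF a` (GLF).
`Sett a F p` holds: `sep` from SEP and LFQ, `pair` from the Shunkov condition. CORE: in the case
`AltL`, `L ⊔ ⟨a⟩` shows `InLF a` (LFA). In the case `AltV`: `D' = D ⊔ V` is finite (`V ≤ C`
commutes with `D`), `a`-invariant, and `Cen F V` consists of elements of `Tor (centralizer D')`; so
`P (D' ⊔ ⟨a⟩)`, and by maximality `V ≤ M`; but `V ≤ N` and `N` avoids `M ∖ {1}`: `V = 1`. -/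
def S_BO : Prop := ∀ (G : Type) [Group G] (a : G), RG G → IsShunkov G → InfTor G →
  (orderOf a).Prime → orderOf a ≠ 2 → (Tor (centralizer ({a} : Set G))).Finite → InLF a

/-- **BT** (2.5 h; BIJ, LFA, MAX, SEP, TFG, GLF, FT2 as hypotheses). `a` of order `2`.
Proof. Suppose `¬ InLF a`. `P`, `M = D ⊔ ⟨a⟩`, `C`, `N`, `N_C` as in BO. If `a` commutes with all of
`N_C` then `N_C` is torsion-free (choice of `N`), `C` is `Good` (TFG), `InLF a` (GLF). So there is
`g ∈ N_C` with `a^g ≠ a`; `A = Pr a g ∩ N_C` is finite (Shunkov condition), `a`-invariant, `FPF`,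
contains `a⁻¹a^g ≠ 1`, and by BIJ every `y ∈ A` is `(k^a)⁻¹ k`, so `y^a = y⁻¹` (`a² = 1`). Take
`x ∈ A` of prime order `q`; `q ≠ 2` (`x^a = x⁻¹ ≠ x`). `D' = D ⊔ ⟨x⟩` is finite, `a`-invariant; if
`Tor (centralizer D')` was infinite, maximality would give `x ∈ M ∩ N = 1`. So it is finite. Choose
`N' ≤ N` normal, `Good`, avoiding its nontrivial elements (SEP). Apply FT2 to `x` (of odd prime order
`q`) and `N'_C = N' ∩ C` (an element of finite order of `N'_C` commuting with `x` lies in
`Tor (centralizer D')`): the elements of finite order of `N'_C` form a subgroup `F'`, `a`-invariant.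
Every `f ∈ F'` is inverted by `a`: `A' = Pr a f ∩ F'` is finite, `a`-invariant, `FPF`, contains
`a⁻¹a^f`, so (BIJ) `a^f = a^k` with `k ∈ A'`, `f k⁻¹ ∈ F'` commutes with `a`, `f = k ∈ A'`, inverted as
above. So `F'` is abelian, hence locally finite (abelian, all elements of finite order). If `F'` is
infinite, LFA gives `InLF a`. If `F'` is finite, SEP, TFG and GLF give `InLF a` as in BO. -/
def S_BT : Prop := ∀ (G : Type) [Group G] (a : G), RG G → IsShunkov G → InfTor G →
  orderOf a = 2 → (Tor (centralizer ({a} : Set G))).Finite → InLF a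

/-- **AA** (2 h; MAX, SEP, TFG, GLF, SSUB, RSUB, BO, BT as hypotheses).
Proof. Suppose there is no infinite locally finite subgroup, i.e. `¬ InLF 1`. Let `P M`: `M` finite,
commutative, `(Tor (centralizer M)).Infinite` (`M = 1` qualifies). Take `M` maximal (MAX, `a = 1`),
`Y = centralizer M`, `N` normal with `Good (G ⧸ N)` avoiding `M ∖ {1}` (SEP). If `N ∩ Y` has no
nontrivial element of finite order then `Y` is `Good` (TFG) and GLF (with `a = 1`) gives `InLF 1`.
Otherwise there is `b ∈ N ∩ Y` of prime order (a power of a nontrivial torsion element). The group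
`M ⊔ ⟨b⟩` is finite and commutative; if the set `Tor` of its centralizer was infinite, maximality
would give `b ∈ M ∩ N = 1`. So it is finite, i.e. in the group `Y` the set
`Tor (centralizer {b})` is finite (an element of `Y` commuting with `b` commutes with `M ⊔ ⟨b⟩`).
`Y` is a Shunkov group (SSUB), `RG Y` (RSUB), `InfTor Y`. So `b` lies in an infinite locally finite
subgroup of `Y` (BO or BT), whose image in `G` shows `InLF 1`. -/
def S_AA : Prop := ∀ (G : Type) [Group G], RG G → IsShunkov G → InfTor G → InLF (1 : G)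

/-- **BB** (1 h; AA, BO, BT, SSUB, RSUB, LFA as hypotheses). Proof. Let `a` have prime order. If
`Tor (centralizer {a})` is finite use BO or BT. Otherwise `C = centralizer {a}` is a Shunkov group,
`RG C`, `InfTor C`, so by AA it has an infinite locally finite subgroup `L`; its image `L'` in `G` is
`a`-invariant and `L' ⊔ ⟨a⟩` is locally finite (LFA). -/
def S_BB : Prop := ∀ (G : Type) [Group G], RG G → IsShunkov G → InfTor G → Concl G

/-- **FNL** (2.5 h; AA, BB, SSUB, SQUO, RSUB, LFA as hypotheses).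
Proof. `H/T` is a Shunkov group (SQUO), `InfTor (H ⧸ T)` (`T` finite: the fibres of `t ↦ tT` are
finite). Let `a ∈ H` have prime order `p`, `π : H → H/T`. (1) `a ∉ T`: `π(a)` has order `p`, lies in an
infinite locally finite subgroup `L̄` (BB), and `π⁻¹(L̄)` is locally finite (`IsLocFin.of_map_quotient`)
and infinite. (2) `a ∈ T`: `C = centralizer {a}` has finite index (the conjugates of `a` lie in `T`).
(2a) If `Tor C` is infinite: `π(C)` is a Shunkov group with `RG` and infinitely many elements of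
finite order, so by AA it contains an infinite locally finite `L̄`; `L = C ∩ π⁻¹(L̄)` is locally finite,
maps onto `L̄`, so is infinite, commutes with `a`; `L ⊔ ⟨a⟩` is locally finite (LFA). (2b) If `Tor C` is
finite: let `C₀` be the normal core of `C`, of finite index; `Tor C₀` is finite, each of its elements
has finitely many conjugates in `C₀`, so `Tor C₀ = lfRad C₀` as a set (`mem_lfRad_of_comm`), and
`T₁ = (lfRad C₀).map C₀.subtype` is a finite normal subgroup of `H`. `C₀/T₁` is torsion-free of finite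
index in `H/T₁`, so `H/T₁` is `Good` (`good_torsionFree`, `good_finite`, `good_extension`), it is a
Shunkov group with infinitely many elements of finite order, so `lfRad (H/T₁)` is infinite
(`shunkov_conclusion`), and its preimage `L` in `H` is infinite, locally finite and normal; use LFA. -/
def S_FNL : Prop := ∀ (H : Type) [Group H] (T : Subgroup H) [T.Normal], (T : Set H).Finite →
  IsShunkov H → InfTor H → RG (H ⧸ T) → Concl H

/-- **RES** (2 h; FNL, SSUB, LFA as hypotheses). Proof. Let `f : H → G`, `K = ker f` `Good`, `H` a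
Shunkov group with infinitely many elements of finite order. `K` is a Shunkov group (SSUB). If `K` has
infinitely many elements of finite order, `lfRad K` is infinite (`shunkov_conclusion`) and
characteristic in `K`, its image `L` in `H` is normal, infinite, locally finite; `L ⊔ ⟨a⟩` by LFA.
Otherwise `Tor K` is finite, equal to `lfRad K` (each element has finitely many conjugates in `K`,
`mem_lfRad_of_comm`), and `T = (lfRad K).map K.subtype` is a finite normal subgroup of `H` containing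
every element of finite order of `K`. `RG (H ⧸ T)`: let `h T ≠ 1` have finite order; `h` has finite
order (`T` is finite) and `h ∉ T`, so `h ∉ K`, `f(h) ≠ 1`; take `N` for `f(h)`; `N' = f⁻¹(N)` contains
`K ≥ T` and `H/N'` embeds in `G/N`, so `N'/T` is a normal subgroup of `H/T` avoiding `hT` with `Good`
quotient. Apply FNL. -/
def S_RES : Prop := ∀ (G : Type) [Group G],
  (∀ g : G, g ≠ 1 → ∃ (N : Subgroup G) (_ : N.Normal), g ∉ N ∧ Good (G ⧸ N)) → QQ G

/-- **QHOM** (0.6 h). Proof. For `h : H → G` with `Good` kernel the kernel of `f ∘ h` is an extension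
of `ker h` by a subgroup of `ker f`: `good_of_ker_range` for `h` restricted to `ker (f ∘ h)`, with
values in `ker f`; its kernel is isomorphic to `ker h`. -/
def S_QHOM : Prop := ∀ (G G' : Type) [Group G] [Group G'] (f : G →* G'), Good f.ker → QQ G' → QQ G

/-- **QUNI** (1.5 h). Proof. Let `h : H → G` have `Good` kernel, `H_k = h⁻¹(F_k)`, a directed family
with union `H`, and let `a ∈ H` have prime order. If some `H_k ∋ a` has infinitely many elements of
finite order, use `QQ (F k)` for `H_k → F_k` (kernel isomorphic to `ker h`, use `Good.comp`; `H_k` is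
a Shunkov group: SSUB as hypothesis) and map the subgroup to `H`. Otherwise `Tor H_k` is finite for all
`k` with `a ∈ H_k`, so it equals `lfRad H_k` (`mem_lfRad_of_comm`: an element of a finite
conjugation-invariant set has a centralizer of finite index), a finite subgroup. So finitely many
elements of finite order of `H` (they lie with `a` in one `H_k`) generate a finite subgroup: the
elements of finite order of `H` form a locally finite subgroup, infinite, containing `a`. -/
def S_QUNI : Prop := ∀ (G : Type) [Group G] (κ : Type) (F : κ → Subgroup G),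
  Directed (· ≤ ·) F → (∀ g : G, ∃ k, g ∈ F k) → (∀ k, QQ (F k)) → QQ G

/-- **TPR** (0.8 h). Proof. By `helly` and `conv_fix` it suffices that two pair-finite elements `x`,
`y` have a common fixed vertex. `x` and `y x y⁻¹` generate a finite group. They have a common fixed
vertex `w`: both have finite order, and `x⁻¹ (y x y⁻¹)` too (`common_fixed_finset` for
`{x, y x y⁻¹}`). So `x` fixes `w` and `y⁻¹ w`. `y⁻¹` fixes a vertex (`exists_fixed`), so by
`midpoint_fixed` the midpoint `m` of `[w, y⁻¹ w]` is fixed by `y⁻¹`, and `x` fixes `m` by `conv_fix`. -/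
def S_TPR : Prop := ∀ (G V : Type) [Group G] [MulAction G V] (T : SimpleGraph V), T.IsTree →
  ActsOn G T → NoInversion G T → ∀ U : Finset G, (∀ u ∈ U, PairFinite u) →
  ∃ v : V, ∀ u ∈ U, u • v = v

/-- **QTREE** (2.5 h; TPR, QHOM, QUNI, SSUB, LFA as hypotheses). Proof. Let `h : H → G` have `Good`
kernel, `H` Shunkov with infinitely many elements of finite order, `a ∈ H` of prime order. `H` acts on
`V` through `h` (`MulAction.compHom`). If `lfRad H` is infinite use LFA. Let it be finite. Let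
`P` be the subgroup generated by all pair-finite elements of `H`, a normal subgroup; `a ∈ P` by the
Shunkov condition. `P` has infinitely many elements of finite order: otherwise `Tor P` is finite and
every element of `Tor P` lies in `lfRad P ≤ lfRad H` (`mem_lfRad_of_comm`, `mem_lfRad_of_normal`);
but there is an element `x` of finite order outside the finite group `lfRad H`, with a prime power in
`lfRad H` (`exists_prime_pow`), and `x` is pair-finite by the Shunkov condition for `lfRad H` (as in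
the proof of `shunkov_conclusion`), so `x ∈ Tor P`, a contradiction. `P` is the directed union of the
subgroups `K_S = ⟨S⟩`, `S` a finite set of pair-finite elements; by TPR `K_S` fixes a vertex `v`, so
`h` maps `K_S` to the stabiliser of `v` with kernel contained in `ker h` (`Good.comp`); `QQ (K_S)` by
QHOM. QUNI: `QQ P`. Apply it to the identity of `P` (`P` is a Shunkov group) and map to `H`. -/
def S_QTREE : Prop := ∀ (G V : Type) [Group G] [MulAction G V] (T : SimpleGraph V), T.IsTree →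
  (∀ (g : G) (v w : V), T.Adj v w → T.Adj (g • v) (g • w)) →
  (∀ (g : G) (v w : V), T.Adj v w → ¬ (g • v = w ∧ g • w = v)) →
  (∀ v : V, QQ (MulAction.stabilizer G v)) → QQ G

end Pool.Agent.Helper29.SH
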