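import Pool.Agent.Helper29.SH.Asm
import Pool.Agent.Helper29.SH.FT1
import Pool.Agent.Helper29.SH.SSUB
import Pool.Agent.Helper1.SH.GLF
import Pool.Agent.Helper1.SH.SEP
import Pool.Agent.Helper1.SH.SYU
import Pool.Agent.Helper12.SH.BO
import Pool.Agent.Helper13.SH.FNL
import Pool.Agent.Helper13.SH.SQUO
import Pool.Agent.Helper14.SH.BT
import Pool.Agent.Helper2.SH.SYC
import Pool.Agent.Helper24.SH.POW
import Pool.Agent.Helper24.SH.SYE
import Pool.Agent.Helper31.SH.TPR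
import Pool.Agent.Helper32.SH.BB
import Pool.Agent.Helper36.SH.RES
import Pool.Agent.Helper39.SH.FT2
import Pool.Agent.Helper39.SH.LFQ
import Pool.Agent.Helper43.SH.LFA
import Pool.Agent.Helper44.SH.OMG
import Pool.Agent.Helper49.SH.FRA
import Pool.Agent.Helper54.SH.NRM
import Pool.Agent.Helper57.SH.C2
import Pool.Agent.Helper57.SH.FROB
import Pool.Agent.Helper59.SH.RSUB
import Pool.Agent.Helper62.SH.TFG
import Pool.Agent.Helper69.SH.FRS
import Pool.Agent.Helper29.SH.CORE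
import Pool.Agent.Helper71.SH.QHOM
import Pool.Agent.Helper73.SH.C1
import Pool.Agent.Helper79.SH.C1A
import Pool.Agent.Helper83.SH.CARD
import Pool.Agent.Helper85.SH.AA
import Pool.Agent.Helper86.SH.BIJ
import Pool.Agent.Helper86.SH.QTREE
import Pool.Agent.Helper89.SH.QUNI
import Pool.Agent.Helper91.SH.MAX
import Pool.Agent.Helper96.SH.QMUL
import Pool.Agent.Helper99.SH.LIFT

/-!
# Project SH: all goals
-/

set_option autoImplicit false

namespace Pool.Agent.Helper29.SH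

open Pool.Agent

theorem h_BIJ : S_BIJ := Helper86.SH.BIJ.t_BIJ
theorem h_POW : S_POW := Helper24.SH.t_POW
theorem h_CARD : S_CARD := Helper83.SH.t_CARD
theorem h_SYE : S_SYE := Helper24.SH.t_SYE h_CARD
theorem h_SYU : S_SYU := Helper1.SH.t_SYU h_BIJ
theorem h_SYC : S_SYC := Helper2.SH.t_SYC h_SYE h_SYU
theorem h_FRA : S_FRA := Helper49.SH.t_FRA h_BIJ h_POW
theorem h_FRS : S_FRS := Helper69.SH.t_FRS h_BIJ h_FRA
theorem h_NRM : S_NRM := Helper54.SH.t_NRM h_SYE h_SYU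
theorem h_FROB : S_FROB := Helper57.SH.t_FROB h_SYE h_NRM h_FRS
theorem h_OMG : S_OMG := Helper44.SH.t_OMG
theorem h_LFA : S_LFA := Helper43.SH.LFA.t_LFA
theorem h_MAX : S_MAX := Helper91.SH.t_MAX
theorem h_SSUB : S_SSUB := t_SSUB
theorem h_SQUO : S_SQUO := Helper13.SH.t_SQUO
theorem h_RSUB : S_RSUB := Helper59.SH.t_RSUB
theorem h_SEP : S_SEP := Helper1.SH.t_SEP
theorem h_TFG : S_TFG := Helper62.SH.t_TFG
theorem h_GLF : S_GLF := Helper1.SH.t_GLF h_SSUB h_LFA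
theorem h_LIFT : S_LIFT := Helper99.SH.t_LIFT h_BIJ
theorem h_LFQ : S_LFQ := Helper39.SH.t_LFQ h_BIJ
theorem h_FT1 : S_FT1 := t_FT1 h_BIJ h_POW
theorem h_FT2 : S_FT2 := Helper39.SH.t_FT2 h_FT1 h_BIJ
theorem h_QMUL : S_QMUL := Helper96.SH.t_QMUL h_SYC h_LIFT
theorem h_C1A : S_C1A := Helper79.SH.t_C1A
theorem h_C1 : S_C1 := Helper73.SH.t_C1 h_QMUL h_OMG h_C1A
theorem h_C2 : S_C2 := Helper57.SH.t_C2 h_SYC h_LIFT h_FROB
theorem h_CORE : S_CORE := t_CORE h_SYC h_OMG h_C1 h_C2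
theorem h_BO : S_BO := Helper12.SH.t_BO h_LFA h_MAX h_SEP h_TFG h_GLF h_LFQ h_FT2 h_CORE
theorem h_BT : S_BT := Helper14.SH.t_BT h_BIJ h_LFA h_MAX h_SEP h_TFG h_GLF h_FT2
theorem h_AA : S_AA := Helper85.SH.t_AA h_MAX h_SEP h_TFG h_GLF h_SSUB h_RSUB h_BO h_BT
theorem h_BB : S_BB := Helper32.SH.t_BB h_AA h_BO h_BT h_SSUB h_RSUB h_LFA
theorem h_FNL : S_FNL := Helper13.SH.t_FNL h_AA h_BB h_SSUB h_SQUO h_RSUB h_LFA
theorem h_RES : S_RES := Helper36.SH.t_RES h_FNL h_SSUB h_LFA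
theorem h_QHOM : S_QHOM := Helper71.SH.t_QHOM
theorem h_QUNI : S_QUNI := Helper89.SH.t_QUNI h_SSUB
theorem h_TPR : S_TPR := Helper31.SH.t_TPR
theorem h_QTREE : S_QTREE := Helper86.SH.t_QTREE h_TPR h_QHOM h_QUNI h_SSUB h_LFA

end Pool.Agent.Helper29.SH
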