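import Pool.Agent.Helper29.SH.Goals

/-!
# Project SH: assembly steps that do not depend on the packets
-/

set_option autoImplicit false

namespace Pool.Agent.Helper29.SH

open Subgroup Pool.H83Shunkov

theorem good_bot {G : Type} [Group G] (K : Subgroup G) (h : ∀ k ∈ K, k = 1) : Good K := by
  have : Subsingleton K := ⟨fun x y => Subtype.ext ((h x x.2).trans (h y y.2).symm)⟩
  have : Finite K := inferInstance
  exact good_finite K

theorem good_ker_of_injective {G G' : Type} [Group G] [Group G'] (f : G →* G')
    (hf : Function.Injective f) : Good f.ker := by
  apply good_bot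
  intro k hk
  exact (injective_iff_map_eq_one f).1 hf k hk

theorem good_ker_mk' {G : Type} [Group G] (N : Subgroup G) [N.Normal] (h : Good N) :
    Good (QuotientGroup.mk' N).ker := by
  have hle : (QuotientGroup.mk' N).ker ≤ N := by rw [QuotientGroup.ker_mk']
  exact h.comp (inclusion hle) (inclusion_injective hle)

/-- The conclusion of the question from the semantic property `QQ`. -/
theorem concl_of_QQ {G : Type} [Group G] (h : QQ G) (hS : IsShunkov G) (hT : InfTor G) :
    Concl G :=
  h G (MonoidHom.id G) (good_ker_of_injective _ Function.injective_id) hS hT

end Pool.Agent.Helper29.SH
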