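import Pool.Agent.Helper29.SH.Goals

set_option autoImplicit false

namespace Pool.Agent.Helper29.SH

open Subgroup Pool.H83Shunkov

theorem t_CORE : S_SYC → S_OMG → S_C1 → S_C2 → S_CORE := by
  classical
  intro hSYC hOMG hC1 hC2 G _ a F p hS hinf
  by_cases hq : ∃ q : ℕ, q.Prime ∧ {x | Qel a F q x}.Infinite
  · obtain ⟨q, hq, hi⟩ := hq
    exact hC1 G a F p q hS hq hi
  push Not at hq
  -- a nontrivial element
  obtain ⟨f, hfF, hf1⟩ : ∃ f ∈ F, f ≠ 1 := by
    by_contra hcon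
    push Not at hcon
    apply hinf
    exact (Set.finite_singleton (1 : G)).subset (fun x hx => hcon x hx)
  obtain ⟨K, hKF, hKfin, hKinv, hfK⟩ := hS.loc f hfF
  have hKf : Finite K := hKfin.to_subtype
  have hcard : Nat.card K ≠ 1 := by
    intro h1
    have h2 : K = ⊥ := Subgroup.eq_bot_of_card_eq K h1
    rw [h2, mem_bot] at hfK
    exact hf1 hfK
  obtain ⟨q, hqp, hqd⟩ := Nat.exists_prime_and_dvd hcard
  have hKfpf : FPF a K := fun k hk hc => hS.fpf k (hKF hk) hc
  obtain ⟨R, hRK, hRcard, hRinv, -⟩ := hSYC G a K p q hKfin hKinv hKfpf hS.hp hS.ha hqp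
  have hRq : IsPGroup q R := IsPGroup.of_card hRcard
  have hRfin : (R : Set G).Finite := hKfin.subset hRK
  have hRne : R ≠ ⊥ := by
    intro h1
    rw [h1] at hRcard
    have h2 : Nat.card (⊥ : Subgroup G) = 1 := Subgroup.card_bot
    rw [h2] at hRcard
    have h3 : 0 < (Nat.card K).factorization q :=
      hqp.factorization_pos_of_dvd Nat.card_pos.ne' hqd
    have h4 : 1 < q ^ (Nat.card K).factorization q := Nat.one_lt_pow h3.ne' hqp.one_lt
    omega
  obtain ⟨V, hVR, hVne, hVinv, -, -⟩ := hOMG G a R q hqp hRfin hRinv hRq hRne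
  have hVF : V ≤ F := hVR.trans (hRK.trans hKF)
  have hVfin : (V : Set G).Finite := hRfin.subset hVR
  by_cases hc : (Cen F V : Set G).Infinite
  · exact Or.inr ⟨V, hVF, hVne, hVfin, hVinv, hc⟩
  · have hVq : IsPGroup q V := hRq.to_le hVR
    have h1 := hC2 G a F V p q hS hqp hVF hVfin hVq hVinv (hq q hqp)
      (Set.not_infinite.1 hc)
    exact Or.inl ⟨F, le_rfl, hS.inv, hinf, h1⟩

end Pool.Agent.Helper29.SH
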