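import Pool.Agent.Helper83.Shunkov.Final

/-!
# Definitions for project SH (Shunkov groups, MP_0a002a_al)
-/

set_option autoImplicit false

namespace Pool.Agent.Helper29.SH

open Subgroup Pool.H83Shunkov

/-- Shunkov (conjugately biprimitively finite) groups: word for word the hypothesis of S00673. -/
def IsShunkov (G : Type) [Group G] : Prop :=
  ∀ (H : Subgroup G), (H : Set G).Finite →
    ∀ (x y n : G) (p : ℕ), p.Prime →
      x ∈ Subgroup.normalizer (H : Set G) →
      y ∈ Subgroup.normalizer (H : Set G) →
      n ∈ Subgroup.normalizer (H : Set G) →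
      x ^ p ∈ H → x ∉ H → (n * x * n⁻¹)⁻¹ * y ∈ H →
      ((Subgroup.closure (({x, y} : Set G) ∪ (H : Set G)) : Subgroup G) : Set G).Finite

/-- The elements of finite order of the subgroup `K`. -/
def Tor {G : Type} [Group G] (K : Subgroup G) : Set G := {t | t ∈ K ∧ IsOfFinOrder t}

/-- `a⁻¹ K a ≤ K`. -/
def Inv {G : Type} [Group G] (a : G) (K : Subgroup G) : Prop := ∀ k ∈ K, a⁻¹ * k * a ∈ K

/-- `a` commutes with no nontrivial element of `K`. -/
def FPF {G : Type} [Group G] (a : G) (K : Subgroup G) : Prop := ∀ k ∈ K, k * a = a * k → k = 1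

/-- The elements of `K` which commute with every element of `V`. -/
def Cen {G : Type} [Group G] (K V : Subgroup G) : Subgroup G := K ⊓ centralizer (V : Set G)

/-- The subgroup generated by `a` and its conjugate `g⁻¹ a g`. -/
def Pr {G : Type} [Group G] (a g : G) : Subgroup G := closure ({a, g⁻¹ * a * g} : Set G)

/-- `a` lies in an infinite locally finite subgroup. -/
def InLF {G : Type} [Group G] (a : G) : Prop :=
  ∃ K : Subgroup G, a ∈ K ∧ (K : Set G).Infinite ∧ IsLocFin K

/-- Every element of prime order lies in an infinite locally finite subgroup. -/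
def Concl (G : Type) [Group G] : Prop := ∀ a : G, (orderOf a).Prime → InLF a

/-- `G` has infinitely many elements of finite order. -/
def InfTor (G : Type) [Group G] : Prop := {g : G | IsOfFinOrder g}.Infinite

/-- Every nontrivial element of finite order survives in a quotient which is `Good`. -/
def RG (G : Type) [Group G] : Prop :=
  ∀ g : G, IsOfFinOrder g → g ≠ 1 → ∃ (N : Subgroup G) (_ : N.Normal), g ∉ N ∧ Good (G ⧸ N)

/-- The semantic property used in the final induction: Q1 holds for every Shunkov group `H` with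
infinitely many elements of finite order that has a homomorphism into `G` with `Good` kernel. -/
def QQ (G : Type) [Group G] : Prop :=
  ∀ (H : Type) [Group H] (f : H →* G), Good f.ker → IsShunkov H → InfTor H → Concl H

/-- Setting of the core of the proof: `a` of prime order `p` (or `a = 1`) acts without fixed points
on the subgroup `F`, every element of `F` lies in a finite `a`-invariant subgroup of `F`, and `F` is
residually locally finite inside `G`. -/
structure Sett {G : Type} [Group G] (a : G) (F : Subgroup G) (p : ℕ) : Prop where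
  hp : p.Prime
  ha : a ^ p = 1
  inv : Inv a F
  loc : ∀ f ∈ F, ∃ K : Subgroup G, K ≤ F ∧ (K : Set G).Finite ∧ Inv a K ∧ f ∈ K
  fpf : FPF a F
  sep : ∀ S : Set G, S.Finite → (∀ s ∈ S, s ∈ F ∧ s ≠ 1) →
    ∃ (N : Subgroup G) (_ : N.Normal), (∀ s ∈ S, s ∉ N) ∧
      IsLocFin (F.map (QuotientGroup.mk' N))
  pair : ∀ x ∈ F, ∀ g ∈ F, (orderOf x).Prime → ((Pr x g : Subgroup G) : Set G).Finite

/-- `x` lies in a finite `a`-invariant `q`-subgroup of `F`. -/
def Qel {G : Type} [Group G] (a : G) (F : Subgroup G) (q : ℕ) (x : G) : Prop :=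
  ∃ R : Subgroup G, R ≤ F ∧ (R : Set G).Finite ∧ Inv a R ∧ IsPGroup q R ∧ x ∈ R

/-- `L` is an infinite locally finite `a`-invariant subgroup of `F`. -/
def AltL {G : Type} [Group G] (a : G) (F : Subgroup G) : Prop :=
  ∃ L : Subgroup G, L ≤ F ∧ Inv a L ∧ (L : Set G).Infinite ∧ IsLocFin L

/-- `V ≠ 1` is a finite `a`-invariant subgroup of `F` with infinite centralizer in `F`. -/
def AltV {G : Type} [Group G] (a : G) (F : Subgroup G) : Prop :=
  ∃ V : Subgroup G, V ≤ F ∧ V ≠ ⊥ ∧ (V : Set G).Finite ∧ Inv a V ∧ (Cen F V : Set G).Infinite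

end Pool.Agent.Helper29.SH
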